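import Mathlib
import Pool.Agent.Y753.SHR.Stm3

/-!
# Laplace transforms at the rational points of the simplex
-/

set_option autoImplicit false

namespace Pool.Agent.Y975.SHL

open MeasureTheory Filter Topology ProbabilityTheory Pool.Agent.Y753.SHL

/-- convexity of the exponential between two points -/
theorem exp_between (a h p x q : ℝ) (h1 : p < x) (h2 : x < q) :
    Real.exp (a + x * h) ≤ (q - x) / (q - p) * Real.exp (a + p * h) +
      (x - p) / (q - p) * Real.exp (a + q * h) := by
  have h3 : 0 < q - p := by linarith
  have ha0 : 0 ≤ (q - x) / (q - p) := div_nonneg (by linarith) h3.le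
  have hb0 : 0 ≤ (x - p) / (q - p) := div_nonneg (by linarith) h3.le
  have hab : (q - x) / (q - p) + (x - p) / (q - p) = 1 := by
    rw [← add_div, div_eq_one_iff_eq h3.ne']
    ring
  have h4 := convexOn_exp.2 (Set.mem_univ (a + p * h)) (Set.mem_univ (a + q * h)) ha0 hb0 hab
  simp only [smul_eq_mul] at h4
  have h5 : (q - x) / (q - p) * (a + p * h) + (x - p) / (q - p) * (a + q * h) = a + x * h := by
    field_simp
    ring
  rw [h5] at h4
  exact h4

section one

variable {Ω : Type*} [MeasurableSpace Ω]

theorem int_between (μ : Measure Ω) (a h : Ω → ℝ) (ha : Measurable a) (hh : Measurable h)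
    (p x q : ℝ) (h1 : p < x) (h2 : x < q)
    (hp : Integrable (fun y => Real.exp (a y + p * h y)) μ)
    (hq : Integrable (fun y => Real.exp (a y + q * h y)) μ) :
    Integrable (fun y => Real.exp (a y + x * h y)) μ ∧
    ∫ y, Real.exp (a y + x * h y) ∂μ ≤ (q - x) / (q - p) * ∫ y, Real.exp (a y + p * h y) ∂μ +
      (x - p) / (q - p) * ∫ y, Real.exp (a y + q * h y) ∂μ := by
  have hs : Integrable (fun y => (q - x) / (q - p) * Real.exp (a y + p * h y) +
      (x - p) / (q - p) * Real.exp (a y + q * h y)) μ :=
    (hp.const_mul _).add (hq.const_mul _)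
  have hi : Integrable (fun y => Real.exp (a y + x * h y)) μ := by
    apply hs.mono' ((ha.add (hh.const_mul x)).exp.aestronglyMeasurable)
    refine Filter.Eventually.of_forall fun y => ?_
    rw [Real.norm_eq_abs, abs_of_pos (Real.exp_pos _)]
    exact exp_between _ _ _ _ _ h1 h2
  refine ⟨hi, ?_⟩
  rw [← integral_const_mul, ← integral_const_mul, ← integral_add (hp.const_mul _) (hq.const_mul _)]
  exact integral_mono hi hs fun y => exp_between _ _ _ _ _ h1 h2

theorem one_dim (μ : ℝ → Measure Ω) (a h : Ω → ℝ) (ha : Measurable a) (hh : Measurable h)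
    (G : ℝ → ℝ) (hG : Continuous G) (α β : ℝ) (D : Set ℝ)
    (hD : ∀ u v : ℝ, u < v → ∃ d ∈ D, u < d ∧ d < v)
    (H : ∀ x ∈ D, α < x → x < β →
      (∀ᶠ T in atTop, Integrable (fun y => Real.exp (a y + x * h y)) (μ T)) ∧
      Tendsto (fun T => ∫ y, Real.exp (a y + x * h y) ∂(μ T)) atTop (𝓝 (G x)))
    (x : ℝ) (hx1 : α < x) (hx2 : x < β) :
    (∀ᶠ T in atTop, Integrable (fun y => Real.exp (a y + x * h y)) (μ T)) ∧
      Tendsto (fun T => ∫ y, Real.exp (a y + x * h y) ∂(μ T)) atTop (𝓝 (G x)) := by
  have hint : ∀ᶠ T in atTop, Integrable (fun y => Real.exp (a y + x * h y)) (μ T) := by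
    obtain ⟨p, hp, hp1, hp2⟩ := hD α x hx1
    obtain ⟨q, hq, hq1, hq2⟩ := hD x β hx2
    filter_upwards [(H p hp hp1 (hp2.trans hx2)).1, (H q hq (hx1.trans hq1) hq2).1] with T h1 h2
    exact (int_between (μ T) a h ha hh p x q hp2 hq1 h1 h2).1
  refine ⟨hint, tendsto_order.2 ⟨fun c hc => ?_, fun c hc => ?_⟩⟩
  · obtain ⟨c', hc1, hc2⟩ := exists_between hc
    obtain ⟨z, hz, hz1, hz2⟩ := hD x β hx2
    have hK : 0 < |G z + 1| + 1 := by positivity
    have hz0 : 0 < z - x := by linarith
    have hev : ∀ᶠ w in 𝓝 x, c' < G w := hG.continuousAt.eventually (lt_mem_nhds hc2)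
    obtain ⟨δ, hδ, hδ'⟩ := Metric.eventually_nhds_iff.1 hev
    have hpos : 0 < (c' - c) * (z - x) / (|G z + 1| + 1) :=
      div_pos (mul_pos (by linarith) hz0) hK
    obtain ⟨p, hp, hp1, hp2⟩ := hD x (min z (x + min δ ((c' - c) * (z - x) / (|G z + 1| + 1))))
      (lt_min hz1 (by have := lt_min hδ hpos; linarith))
    have hpz : p < z := lt_of_lt_of_le hp2 (min_le_left _ _)
    have hpd : p < x + δ := lt_of_lt_of_le hp2
      ((min_le_right _ _).trans (add_le_add le_rfl (min_le_left _ _)))
    have hpK : p < x + (c' - c) * (z - x) / (|G z + 1| + 1) := lt_of_lt_of_le hp2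
      ((min_le_right _ _).trans (add_le_add le_rfl (min_le_right _ _)))
    have hGp : c' < G p := hδ' (by rw [Real.dist_eq, abs_of_pos (by linarith)]; linarith)
    have e1 := (H p hp (hx1.trans hp1) (hpz.trans hz2))
    have e2 := (H z hz (hx1.trans hz1) hz2)
    filter_upwards [hint, e1.1, e2.1, e1.2.eventually (lt_mem_nhds hGp),
      e2.2.eventually (gt_mem_nhds (show G z < G z + 1 by linarith))] with T i1 i2 i3 i4 i5
    have h1 := (int_between (μ T) a h ha hh x p z hp1 hpz i1 i3).2
    have h2 : 0 ≤ ∫ y, Real.exp (a y + x * h y) ∂(μ T) :=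
      integral_nonneg fun y => (Real.exp_pos _).le
    have h2' : 0 ≤ ∫ y, Real.exp (a y + z * h y) ∂(μ T) :=
      integral_nonneg fun y => (Real.exp_pos _).le
    have h3 : (z - p) / (z - x) * ∫ y, Real.exp (a y + x * h y) ∂(μ T) ≤
        ∫ y, Real.exp (a y + x * h y) ∂(μ T) := by
      have h4 : (z - p) / (z - x) ≤ 1 := by
        rw [div_le_one hz0]
        linarith
      exact mul_le_of_le_one_left h2 h4
    have h5 : (p - x) / (z - x) * ∫ y, Real.exp (a y + z * h y) ∂(μ T) ≤ c' - c := by
      have h6 : (p - x) / (z - x) * ∫ y, Real.exp (a y + z * h y) ∂(μ T) ≤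
          (p - x) / (z - x) * (|G z + 1| + 1) := by
        apply mul_le_mul_of_nonneg_left _ (div_nonneg (by linarith) hz0.le)
        have := le_abs_self (G z + 1)
        linarith
      have h7 : (p - x) / (z - x) * (|G z + 1| + 1) ≤ c' - c := by
        rw [div_mul_eq_mul_div, div_le_iff₀ hz0]
        have h8 : p - x ≤ (c' - c) * (z - x) / (|G z + 1| + 1) := by linarith
        rw [le_div_iff₀ hK] at h8
        exact h8
      exact h6.trans h7
    linarith
  · have hev : ∀ᶠ w in 𝓝 x, G w < c := hG.continuousAt.eventually (gt_mem_nhds hc)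
    obtain ⟨δ, hδ, hδ'⟩ := Metric.eventually_nhds_iff.1 hev
    obtain ⟨p, hp, hp1, hp2⟩ := hD (max α (x - δ)) x (max_lt hx1 (by linarith))
    obtain ⟨q, hq, hq1, hq2⟩ := hD x (min β (x + δ)) (lt_min hx2 (by linarith))
    have hpα : α < p := lt_of_le_of_lt (le_max_left _ _) hp1
    have hpd : x - δ < p := lt_of_le_of_lt (le_max_right _ _) hp1
    have hqβ : q < β := lt_of_lt_of_le hq2 (min_le_left _ _)
    have hqd : q < x + δ := lt_of_lt_of_le hq2 (min_le_right _ _)
    have hGp : G p < c := hδ' (by rw [Real.dist_eq, abs_lt]; constructor <;> linarith)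
    have hGq : G q < c := hδ' (by rw [Real.dist_eq, abs_lt]; constructor <;> linarith)
    have e1 := H p hp hpα (hp2.trans hx2)
    have e2 := H q hq (hx1.trans hq1) hqβ
    filter_upwards [e1.1, e2.1, e1.2.eventually (gt_mem_nhds hGp),
      e2.2.eventually (gt_mem_nhds hGq)] with T i1 i2 i3 i4
    have h1 := (int_between (μ T) a h ha hh p x q hp2 hq1 i1 i2).2
    have hqp : 0 < q - p := by linarith
    have h3 : (q - x) / (q - p) * ∫ y, Real.exp (a y + p * h y) ∂(μ T) <
        (q - x) / (q - p) * c := mul_lt_mul_of_pos_left i3 (div_pos (by linarith) hqp)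
    have h4 : (x - p) / (q - p) * ∫ y, Real.exp (a y + q * h y) ∂(μ T) <
        (x - p) / (q - p) * c := mul_lt_mul_of_pos_left i4 (div_pos (by linarith) hqp)
    have h5 : (q - x) / (q - p) * c + (x - p) / (q - p) * c = c := by
      rw [← add_mul, ← add_div]
      have : q - x + (x - p) = q - p := by ring
      rw [this, div_self hqp.ne', one_mul]
    linarith

end one

theorem lf_update {n : ℕ} (θ y : Fin n → ℝ) (j : Fin n) (x : ℝ) :
    lf (Function.update θ j x) y = lf (Function.update θ j 0) y + x * y j := by
  unfold lf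
  have h1 : ∀ i, Function.update θ j x i * y i =
      Function.update θ j 0 i * y i + (if i = j then x * y j else 0) := by
    intro i
    by_cases h : i = j
    · subst h
      simp
    · rw [Function.update_of_ne h, Function.update_of_ne h, if_neg h, add_zero]
  rw [Finset.sum_congr rfl fun i _ => h1 i, Finset.sum_add_distrib]
  congr 1
  simp

theorem sum_update {n : ℕ} (θ : Fin n → ℝ) (j : Fin n) (x : ℝ) :
    ∑ i, Function.update θ j x i = ∑ i, Function.update θ j 0 i + x := by
  have h := lf_update θ (fun _ => 1) j x
  unfold lf at h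
  simpa using h

theorem lf_meas {n : ℕ} (θ : Fin n → ℝ) : Measurable (lf θ) := by
  have : lf θ = fun y : Fin n → ℝ => ∑ j, θ j * y j := rfl
  rw [this]
  exact Finset.measurable_sum _ fun j _ => (measurable_pi_apply j).const_mul _

theorem aux {n : ℕ} (μ : ℝ → ProbabilityMeasure (Fin n → ℝ)) (m : Fin n → ℝ)
    (C : Fin n → Fin n → ℝ) (b : ℝ) (hb : 0 < b)
    (H : ∀ q : Fin n → ℚ, (∀ j, 0 < q j) → ∑ j, (q j : ℝ) < 1 → Lap μ m C (fun j => b * q j))
    (S : Finset (Fin n)) : ∀ θ : Fin n → ℝ, (∀ j, 0 < θ j) → ∑ j, θ j < b →
      (∀ j, j ∉ S → ∃ q : ℚ, θ j = b * q) → Lap μ m C θ := by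
  classical
  induction S using Finset.induction_on with
  | empty =>
    intro θ h1 h2 h3
    choose q hq using fun j => h3 j (Finset.notMem_empty j)
    have h4 : θ = fun j => b * (q j : ℝ) := funext hq
    rw [h4]
    apply H q
    · intro j
      have h5 := h1 j
      rw [hq j] at h5
      exact_mod_cast (pos_iff_pos_of_mul_pos h5).1 hb
    · rw [h4, ← Finset.mul_sum] at h2
      by_contra h5
      push Not at h5
      nlinarith
  | insert j S hj ih =>
    intro θ h1 h2 h3
    have key := one_dim (fun T => (μ T : Measure (Fin n → ℝ))) (lf (Function.update θ j 0))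
      (fun y => y j) (lf_meas _) (measurable_pi_apply j)
      (fun x => Real.exp (lf (Function.update θ j x) m + qf C (Function.update θ j x) / 2))
      (by
        unfold lf qf
        have hu0 : Continuous fun x : ℝ => Function.update θ j x :=
          continuous_const.update j continuous_id
        have hu : ∀ i, Continuous fun x : ℝ => Function.update θ j x i := fun i =>
          (continuous_apply i).comp hu0
        refine Real.continuous_exp.comp (Continuous.add ?_ ?_)
        · exact continuous_finset_sum _ fun i _ => (hu i).mul continuous_const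
        · exact Continuous.div_const (continuous_finset_sum _ fun i _ =>
            continuous_finset_sum _ fun k _ => ((hu i).mul (hu k)).mul continuous_const) _)
      0 (b - ∑ i, Function.update θ j 0 i) (Set.range fun q : ℚ => b * (q : ℝ))
      (by
        intro u v huv
        obtain ⟨q, hq1, hq2⟩ := exists_rat_btwn (show u / b < v / b from
          div_lt_div_of_pos_right huv hb)
        refine ⟨b * q, ⟨q, rfl⟩, ?_, ?_⟩
        · rw [div_lt_iff₀ hb] at hq1
          linarith
        · rw [lt_div_iff₀ hb] at hq2
          linarith)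
      (by
        rintro x ⟨q, hq⟩ hx1 hx2
        have h4 := ih (Function.update θ j x) (by
            intro i
            by_cases h : i = j
            · subst h
              rw [Function.update_self]
              exact hx1
            · rw [Function.update_of_ne h]
              exact h1 i)
          (by
            rw [sum_update]
            linarith)
          (by
            intro i hi
            by_cases h : i = j
            · subst h
              exact ⟨q, by rw [Function.update_self]; exact hq.symm⟩
            · rw [Function.update_of_ne h]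
              exact h3 i (by
                rw [Finset.mem_insert]
                rintro (h5 | h5)
                · exact h h5
                · exact hi h5))
        unfold Lap at h4
        simp only [lf_update θ _ j x] at h4 ⊢
        exact h4)
      (θ j) (h1 j) (by
        have h5 := sum_update θ j (θ j)
        rw [Function.update_eq_self] at h5
        linarith)
    have h6 : ∀ y, lf (Function.update θ j 0) y + θ j * y j = lf θ y := by
      intro y
      rw [← lf_update, Function.update_eq_self]
    simp only [h6, Function.update_eq_self] at key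
    exact key

/-- rational points of the simplex suffice -/
theorem dense : S_DENSE := by
  intro n μ m C b hb H θ h1 h2
  exact aux μ m C b hb H Finset.univ θ h1 h2 fun j hj => absurd (Finset.mem_univ j) hj

end Pool.Agent.Y975.SHL
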